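import Pool.Agent.Lib.MP_85f9db_co.H67.Main

set_option autoImplicit false

/-! # The colouring step with general parameters, and the reduction to one level -/

namespace Pool.Agent.Lib.MP_85f9db_co.H7

open Finset Pool.Agent.Lib.MP_85f9db_co.H67

/-- The quantity that bounds the sum of weights at a vertex (separated and unseparated part). -/
noncomputable def SC (A B ρ1 ρ2 : ℝ) (t0 τ : ℕ) : ℝ :=
  ((A * t0 + B) * ρ1 ^ t0 + A * ρ1 ^ (t0 + 1) / (1 - ρ1)) +
  ((A * τ + B) * ρ2 ^ τ + A * ρ2 ^ (τ + 1) / (1 - ρ2))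

lemma sum_wt_le' {V : Type*} (Y : Finset V) (t : V → ℕ) (t0 : ℕ) (h0 : ∀ y ∈ Y, t0 ≤ t y) (τ : ℕ)
    (hτ : t0 ≤ τ) (A B : ℝ) (hA : 0 ≤ A)
    (hF : ∀ s, t0 ≤ s → ((Y.filter (fun y => t y ≤ s)).card : ℝ) ≤ A * s + B)
    (x l : ℝ) (hl : l < 1) (h10 : 0 ≤ x / (1 - l)) (h11 : x / (1 - l) < 1)
    (h20 : 0 ≤ (1 - x) / (1 - l)) (h21 : (1 - x) / (1 - l) < 1) :
    ∑ y ∈ Y, wt τ x l (t y) ≤ SC A B (x / (1 - l)) ((1 - x) / (1 - l)) t0 τ / (1 - l) ^ 2 := by
  classical
  have hl' : 0 < (1 - l) ^ 2 := by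
    apply pow_pos
    linarith
  have h1 : ∑ y ∈ Y, wt τ x l (t y) =
      (∑ y ∈ Y.filter (fun y => t y < τ), (x / (1 - l)) ^ t y +
        ∑ y ∈ Y.filter (fun y => ¬ t y < τ), ((1 - x) / (1 - l)) ^ t y) / (1 - l) ^ 2 := by
    rw [← Finset.sum_filter_add_sum_filter_not Y (fun y => t y < τ), add_div,
      Finset.sum_div, Finset.sum_div]
    congr 1
    · apply Finset.sum_congr rfl
      intro y hy
      rw [wt_eq, if_pos (Finset.mem_filter.mp hy).2]
    · apply Finset.sum_congr rfl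
      intro y hy
      rw [wt_eq, if_neg (Finset.mem_filter.mp hy).2]
  rw [h1]
  apply div_le_div_of_nonneg_right _ hl'.le
  unfold SC
  have hsub : ∀ (P : V → Prop) [DecidablePred P] (s : ℕ),
      (((Y.filter P).filter (fun y => t y ≤ s)).card : ℝ) ≤
        ((Y.filter (fun y => t y ≤ s)).card : ℝ) := by
    intro P _ s
    apply Nat.cast_le.mpr
    apply Finset.card_le_card
    intro y hy
    simp only [mem_filter] at hy ⊢
    exact ⟨hy.1.1, hy.2⟩
  have h2 := geo_sum (Y.filter (fun y => t y < τ)) t t0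
    (fun y hy => h0 y (Finset.mem_filter.mp hy).1) A B hA
    (fun s hs => (hsub _ s).trans (hF s hs)) _ h10 h11
  have h3 := geo_sum (Y.filter (fun y => ¬ t y < τ)) t τ
    (fun y hy => not_lt.mp (Finset.mem_filter.mp hy).2) A B hA
    (fun s hs => (hsub _ s).trans (hF s (hτ.trans hs))) _ h20 h21
  exact add_le_add h2 h3

section

variable {V : Type*} [Fintype V] [DecidableEq V] (G : SimpleGraph V) [DecidableRel G.Adj]

/-- Two vertices joined by a path of length two with two colours. -/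
def Good (c : Sym2 V → Bool) : Prop :=
  ∀ u v, u ≠ v → ¬ G.Adj u v → ∃ w, G.Adj u w ∧ G.Adj v w ∧ c s(u, w) ≠ c s(v, w)

/-- The number of non-neighbours of `z` with at most `s` common neighbours. -/
def near (z : V) (s : ℕ) : Finset V :=
  (univ.filter (fun y => z ≠ y ∧ ¬ G.Adj z y)).filter (fun y => (com G z y).card ≤ s)

/-- A general form of the colouring step, with noise rate `1 / (k + 1)`. -/
theorem regime (k : ℕ) (b : V → Bool) (t0 τ : ℕ) (hτ : t0 ≤ τ)
    (hb : ∀ u v, u ≠ v → ¬ G.Adj u v → (com G u v).card < τ → b u ≠ b v)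
    (h0 : ∀ u v, u ≠ v → ¬ G.Adj u v → t0 ≤ (com G u v).card)
    (A B : ℝ) (hA : 0 ≤ A)
    (hcount : ∀ z s, t0 ≤ s → ((near G z s).card : ℝ) ≤ A * s + B)
    (x l : ℝ) (hx : x = 2 * (1 / ((k : ℝ) + 1)) * (1 - 1 / ((k : ℝ) + 1))) (hl : l < 1)
    (h11 : x / (1 - l) < 1) (h21 : (1 - x) / (1 - l) < 1)
    (hS : SC A B (x / (1 - l)) ((1 - x) / (1 - l)) t0 τ / (1 - l) ^ 2 ≤ l) :
    ∃ c : Sym2 V → Bool, Good G c := by
  have hk : (0 : ℝ) < (k : ℝ) + 1 := by positivity
  have hq1 : 1 / ((k : ℝ) + 1) ≤ 1 := by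
    rw [div_le_one hk]
    have : (0 : ℝ) ≤ k := Nat.cast_nonneg k
    linarith
  have hq0 : 0 ≤ 1 / ((k : ℝ) + 1) := by positivity
  set q : ℝ := 1 / ((k : ℝ) + 1) with hqdef
  have hx0 : 0 ≤ x := by
    rw [hx]
    have : 0 ≤ 1 - q := by linarith
    positivity
  have hx1 : x ≤ 1 / 2 := by rw [hx]; nlinarith [sq_nonneg (q - 1 / 2)]
  have hl' : 0 < 1 - l := by linarith
  apply exists_colouring G (α := Fin (k + 1)) b (fun a => a = 0) q hq0 hq1 (by
    rw [Finset.filter_eq', if_pos (mem_univ _), Finset.card_singleton, Fintype.card_fin, hqdef]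
    push_cast
    rfl) τ hb l hl
  intro z
  rw [← hx]
  refine le_trans ?_ hS
  apply sum_wt_le' _ (fun y => (com G z y).card)
  · intro y hy
    obtain ⟨_, h1, h2⟩ := Finset.mem_filter.mp hy
    exact h0 z y h1 h2
  · exact hτ
  · exact hA
  · exact hcount z
  · exact hl
  · positivity
  · exact h11
  · apply div_nonneg _ hl'.le
    linarith
  · exact h21

/-- The colouring step with noise rate `1 / 2`, where separated and unseparated pairs are
counted together. -/
theorem regime_half (b : V → Bool) (t0 τ : ℕ)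
    (hb : ∀ u v, u ≠ v → ¬ G.Adj u v → (com G u v).card < τ → b u ≠ b v)
    (h0 : ∀ u v, u ≠ v → ¬ G.Adj u v → t0 ≤ (com G u v).card)
    (A B : ℝ) (hA : 0 ≤ A)
    (hcount : ∀ z s, t0 ≤ s → ((near G z s).card : ℝ) ≤ A * s + B)
    (l : ℝ) (hl0 : 0 ≤ l) (hl : l < 1 / 2)
    (hS : ((A * t0 + B) * (1 / 2 / (1 - l)) ^ t0 +
      A * (1 / 2 / (1 - l)) ^ (t0 + 1) / (1 - 1 / 2 / (1 - l))) / (1 - l) ^ 2 ≤ l) :
    ∃ c : Sym2 V → Bool, Good G c := by
  have hl' : 0 < 1 - l := by linarith
  apply exists_colouring G (α := Bool) b (fun a => a = true) (1 / 2) (by norm_num)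
    (by norm_num) (by
      have : (univ.filter (fun a : Bool => a = true)).card = 1 := by decide
      rw [this, Fintype.card_bool]
      norm_num) τ hb l (by linarith)
  intro z
  have h1 : ∀ y ∈ univ.filter (fun y => z ≠ y ∧ ¬ G.Adj z y),
      wt τ (2 * (1 / 2) * (1 - 1 / 2)) l (com G z y).card =
        (1 / 2 / (1 - l)) ^ (com G z y).card / (1 - l) ^ 2 := by
    intro y _
    rw [wt_eq]
    congr 2
    split_ifs <;> norm_num
  rw [Finset.sum_congr rfl h1, ← Finset.sum_div]
  refine le_trans ?_ hS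
  apply div_le_div_of_nonneg_right _ (by positivity)
  refine geo_sum (univ.filter (fun y => z ≠ y ∧ ¬ G.Adj z y)) (fun y => (com G z y).card) t0
    (fun y hy => h0 z y (Finset.mem_filter.mp hy).2.1 (Finset.mem_filter.mp hy).2.2)
    A B hA (hcount z) _ (by positivity) ?_
  rw [div_lt_one hl']
  linarith

/-- The colouring step with noise rate `1 / (k + 1)`, where every vertex may have up to `K`
partners with exactly `e` common neighbours, `e < t0`. -/
theorem regime_exc (k : ℕ) (b : V → Bool) (e t0 τ K : ℕ) (he : e < t0) (hτ : t0 ≤ τ)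
    (hb : ∀ u v, u ≠ v → ¬ G.Adj u v → (com G u v).card < τ → b u ≠ b v)
    (h0 : ∀ u v, u ≠ v → ¬ G.Adj u v → (com G u v).card = e ∨ t0 ≤ (com G u v).card)
    (hK : ∀ z, ((univ.filter (fun y => z ≠ y ∧ ¬ G.Adj z y)).filter
      (fun y => (com G z y).card = e)).card ≤ K)
    (A B : ℝ) (hA : 0 ≤ A)
    (hcount : ∀ z s, t0 ≤ s → ((near G z s).card : ℝ) ≤ A * s + B)
    (x l : ℝ) (hx : x = 2 * (1 / ((k : ℝ) + 1)) * (1 - 1 / ((k : ℝ) + 1))) (hl : l < 1)
    (h11 : x / (1 - l) < 1) (h21 : (1 - x) / (1 - l) < 1)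
    (hS : ((K : ℝ) * (x / (1 - l)) ^ e + SC A B (x / (1 - l)) ((1 - x) / (1 - l)) t0 τ) /
      (1 - l) ^ 2 ≤ l) :
    ∃ c : Sym2 V → Bool, Good G c := by
  have hk : (0 : ℝ) < (k : ℝ) + 1 := by positivity
  have hq1 : 1 / ((k : ℝ) + 1) ≤ 1 := by
    rw [div_le_one hk]
    have : (0 : ℝ) ≤ k := Nat.cast_nonneg k
    linarith
  have hq0 : 0 ≤ 1 / ((k : ℝ) + 1) := by positivity
  set q : ℝ := 1 / ((k : ℝ) + 1) with hqdef
  have hx0 : 0 ≤ x := by
    rw [hx]
    have : 0 ≤ 1 - q := by linarith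
    positivity
  have hx1 : x ≤ 1 / 2 := by rw [hx]; nlinarith [sq_nonneg (q - 1 / 2)]
  have hl' : 0 < 1 - l := by linarith
  apply exists_colouring G (α := Fin (k + 1)) b (fun a => a = 0) q hq0 hq1 (by
    rw [Finset.filter_eq', if_pos (mem_univ _), Finset.card_singleton, Fintype.card_fin, hqdef]
    push_cast
    rfl) τ hb l hl
  intro z
  rw [← hx]
  refine le_trans ?_ hS
  obtain ⟨Y, hY⟩ : ∃ Y : Finset V, Y = univ.filter (fun y => z ≠ y ∧ ¬ G.Adj z y) := ⟨_, rfl⟩
  rw [← hY, ← Finset.sum_filter_add_sum_filter_not Y (fun y => (com G z y).card = e), add_div]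
  apply add_le_add
  · have h1 : ∀ y ∈ Y.filter (fun y => (com G z y).card = e), wt τ x l (com G z y).card =
        (x / (1 - l)) ^ e / (1 - l) ^ 2 := by
      intro y hy
      rw [(Finset.mem_filter.mp hy).2, wt_eq, if_pos (by omega)]
    rw [Finset.sum_congr rfl h1, Finset.sum_const, nsmul_eq_mul, ← mul_div_assoc]
    apply div_le_div_of_nonneg_right _ (by positivity)
    apply mul_le_mul_of_nonneg_right _ (by positivity)
    rw [hY]
    exact_mod_cast hK z
  · apply sum_wt_le' _ (fun y => (com G z y).card)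
    · intro y hy
      obtain ⟨hy1, hy2⟩ := Finset.mem_filter.mp hy
      rw [hY] at hy1
      obtain ⟨_, h1, h2⟩ := Finset.mem_filter.mp hy1
      exact (h0 z y h1 h2).resolve_left hy2
    · exact hτ
    · exact hA
    · intro s hs
      refine le_trans ?_ (hcount z s hs)
      apply Nat.cast_le.mpr
      apply Finset.card_le_card
      intro y hy
      rw [Finset.mem_filter, Finset.mem_filter, hY] at hy
      rw [near, Finset.mem_filter]
      exact ⟨hy.1.1, hy.2⟩
    · exact hl
    · positivity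
    · exact h11
    · apply div_nonneg _ hl'.le
      linarith
    · exact h21

lemma light_mono {s t : ℕ} (h : s ≤ t) : light G s ≤ light G t := by
  intro u v huv
  exact ⟨huv.1, huv.2.1, huv.2.2.trans h⟩

lemma exc_le (hdeg : ∀ u v, u ≠ v → ¬ G.Adj u v → Fintype.card V ≤ G.degree u + G.degree v) :
    ∀ u v, u ≠ v → ¬ G.Adj u v → (exc G u v).card ≤ 2 * (com G u v).card := by
  intro u v huv hadj
  have h1 := card_exc G u v
  have h2 := hdeg u v huv hadj
  omega

/-- If the graph of pairs with at most `T` common neighbours is not bipartite, then every vertex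
has few near-complementary partners. -/
lemma card_near_le' (hdeg : ∀ u v, u ≠ v → ¬ G.Adj u v →
      Fintype.card V ≤ G.degree u + G.degree v) (T : ℕ) (hT : ¬ (light G T).Colorable 2)
    (z : V) (s : ℕ) : (near G z s).card ≤ (4 * s + 1) * (2 * T) := by
  classical
  obtain ⟨l, u, hu, hinj⟩ := exists_oddSeq_inj hT
  have hM : ∀ i, (exc G (u i) (u (i + 1))).card ≤ 2 * T := by
    intro i
    obtain ⟨h1, h2, h3⟩ := hu.adj i
    have := exc_le G hdeg _ _ h1 h2
    omega
  have h1 := card_near_le G hu hinj (2 * T) hM z (2 * s)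
  have h2 : (near G z s).card ≤ (2 * (2 * s) + 1) * (2 * T) := by
    refine le_trans (Finset.card_le_card ?_) h1
    intro y hy
    simp only [near, mem_filter, mem_univ, true_and] at hy ⊢
    have := exc_le G hdeg z y hy.1.1 hy.1.2
    omega
  calc (near G z s).card ≤ _ := h2
    _ = (4 * s + 1) * (2 * T) := by ring

/-- Reduction to one level: `τ` is the least level at which the light pairs are not bipartite. -/
theorem main_tau (hdeg : ∀ u v, u ≠ v → ¬ G.Adj u v →
      Fintype.card V ≤ G.degree u + G.degree v) (t0 : ℕ) (ht0 : 1 ≤ t0)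
    (h0 : ∀ u v, u ≠ v → ¬ G.Adj u v → t0 ≤ (com G u v).card)
    (T : ℕ) (hT : ∀ s, s < T → (light G s).Colorable 2)
    (hreg : ∀ τ : ℕ, t0 ≤ τ → T ≤ τ → ∀ b : V → Bool,
      (∀ u v, u ≠ v → ¬ G.Adj u v → (com G u v).card < τ → b u ≠ b v) →
      (∀ z s, t0 ≤ s → ((near G z s).card : ℝ) ≤ (8 * (τ : ℝ)) * s + 2 * (τ : ℝ)) →
      ∃ c : Sym2 V → Bool, Good G c) :
    ∃ c : Sym2 V → Bool, Good G c := by
  classical
  by_cases hall : ∀ s, (light G s).Colorable 2
  · -- all non-adjacent pairs are separated by one cut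
    obtain ⟨C⟩ := hall (Fintype.card V)
    refine ⟨cutc (fun v => decide (C v = 0)), ?_⟩
    intro u v huv hadj
    have h1 : 0 < (com G u v).card := by
      have := h0 u v huv hadj
      omega
    obtain ⟨w, hw⟩ := Finset.card_pos.mp h1
    rw [mem_com] at hw
    refine ⟨w, hw.1, hw.2, ?_⟩
    have h2 : (light G (Fintype.card V)).Adj u v := ⟨huv, hadj, Finset.card_le_univ _⟩
    have h3 := C.valid h2
    unfold cutc
    simp only [Sym2.lift_mk]
    have h4 : decide (C u = 0) ≠ decide (C v = 0) := by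
      intro h
      apply h3
      rw [decide_eq_decide] at h
      by_cases h5 : C u = 0
      · rw [h5, h.mp h5]
      · have h6 : C v ≠ 0 := fun h7 => h5 (h.mpr h7)
        omega
    intro h5
    apply h4
    revert h5
    generalize decide (C u = 0) = a1
    generalize decide (C v = 0) = a2
    generalize decide (C w = 0) = a3
    revert a1 a2 a3
    decide
  · push Not at hall
    set τ := Nat.find hall with hτdef
    have hτ : ¬ (light G τ).Colorable 2 := Nat.find_spec hall
    have hτmin : ∀ s, s < τ → (light G s).Colorable 2 := by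
      intro s hs
      by_contra h
      exact Nat.find_min hall hs h
    have hτ0 : t0 ≤ τ := by
      by_contra hcon
      apply hτ
      refine ⟨SimpleGraph.Coloring.mk (fun _ => 0) ?_⟩
      intro u v h
      obtain ⟨h1, h2, h3⟩ := h
      have := h0 u v h1 h2
      omega
    have hτT : T ≤ τ := by
      by_contra hcon
      exact hτ (hT τ (by omega))
    obtain ⟨C⟩ := hτmin (τ - 1) (by omega)
    obtain ⟨b, hbdef⟩ : ∃ b : V → Bool, ∀ v, b v = decide (C v = 0) :=
      ⟨fun v => decide (C v = 0), fun _ => rfl⟩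
    have hb : ∀ u v, u ≠ v → ¬ G.Adj u v → (com G u v).card < τ → b u ≠ b v := by
      intro u v huv hadj ht
      have h3 := C.valid (show (light G (τ - 1)).Adj u v from ⟨huv, hadj, by omega⟩)
      rw [hbdef, hbdef]
      intro h
      apply h3
      rw [decide_eq_decide] at h
      by_cases h5 : C u = 0
      · rw [h5, h.mp h5]
      · have h6 : C v ≠ 0 := fun h7 => h5 (h.mpr h7)
        omega
    refine hreg τ hτ0 hτT b hb ?_
    intro z s _
    have h1 := card_near_le' G hdeg τ hτ z s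
    calc ((near G z s).card : ℝ) ≤ (((4 * s + 1) * (2 * τ) : ℕ) : ℝ) := by exact_mod_cast h1
      _ = (8 * (τ : ℝ)) * s + 2 * (τ : ℝ) := by push_cast; ring

end

end Pool.Agent.Lib.MP_85f9db_co.H7
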