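import Pool.Agent.Lib.MP_85f9db_co.H7.Num

set_option autoImplicit false

/-! # Degree sum at least `n` -/

namespace Pool.Agent.Lib.MP_85f9db_co.H7

open Finset Pool.Agent.Lib.MP_85f9db_co.H67

section

variable {V : Type*} [Fintype V] [DecidableEq V] (G : SimpleGraph V) [DecidableRel G.Adj]

lemma com_add_two_le (u v : V) (huv : u ≠ v) (hadj : ¬ G.Adj u v) :
    (com G u v).card + 2 ≤ (exc G u v).card := by
  have h2 : insert u (insert v (com G u v)) ⊆ exc G u v := by
    intro w hw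
    rw [mem_exc]
    simp only [mem_insert, mem_com] at hw
    rcases hw with rfl | rfl | hw
    · have : ¬ G.Adj v w := fun h => hadj h.symm
      simp [this]
    · simp [hadj]
    · simp [hw]
  have h3 := Finset.card_le_card h2
  rw [Finset.card_insert_of_notMem, Finset.card_insert_of_notMem] at h3
  · omega
  · rw [mem_com]
    intro h
    exact G.loopless.irrefl v h.2
  · rw [mem_insert, mem_com]
    rintro (h | h)
    · exact huv h
    · exact G.loopless.irrefl u h.1

lemma two_le (hdeg : ∀ u v, u ≠ v → ¬ G.Adj u v →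
      Fintype.card V ≤ G.degree u + G.degree v) :
    ∀ u v, u ≠ v → ¬ G.Adj u v → 2 ≤ (com G u v).card := by
  intro u v huv hadj
  have h1 := card_exc G u v
  have h4 := hdeg u v huv hadj
  have h3 := com_add_two_le G u v huv hadj
  omega

/-- All codegrees of non-adjacent pairs at least `18`. -/
theorem eighteen (hdeg : ∀ u v, u ≠ v → ¬ G.Adj u v →
      Fintype.card V ≤ G.degree u + G.degree v)
    (h18 : ∀ u v, u ≠ v → ¬ G.Adj u v → 18 ≤ (com G u v).card) :
    ∃ c : Sym2 V → Bool, Good G c := by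
  apply main_tau G hdeg 18 (by norm_num) h18 0 (by intro s hs; omega)
  intro τ hτ _ b hb hcount
  have hA : (0 : ℝ) ≤ 8 * (τ : ℝ) := by positivity
  rcases Nat.lt_or_ge 30 τ with h30 | h30
  swap
  · -- noise rate 1/2
    apply regime_half G b 18 τ hb h18 _ _ hA hcount (1 / 19) (by norm_num) (by norm_num)
    have h1 : (τ : ℝ) ≤ 30 := by exact_mod_cast h30
    have h2 : (8 * (τ : ℝ) * (18 : ℕ) + 2 * τ) * (1 / 2 / (1 - 1 / 19)) ^ 18 +
        8 * (τ : ℝ) * (1 / 2 / (1 - 1 / 19)) ^ (18 + 1) / (1 - 1 / 2 / (1 - 1 / 19)) =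
        (τ : ℝ) * (146 * (19 / 36) ^ 18 + 8 * (19 / 36) ^ 19 / (17 / 36)) := by
      push_cast
      norm_num
      ring
    rw [h2, div_le_iff₀ (by norm_num)]
    calc (τ : ℝ) * (146 * (19 / 36) ^ 18 + 8 * (19 / 36) ^ 19 / (17 / 36))
        ≤ 30 * (146 * (19 / 36) ^ 18 + 8 * (19 / 36) ^ 19 / (17 / 36)) :=
          mul_le_mul_of_nonneg_right h1 (by norm_num)
      _ ≤ 1 / 19 * (1 - 1 / 19) ^ 2 := by norm_num
  rcases Nat.lt_or_ge 200 τ with h200 | h200
  swap
  · -- noise rate 1/3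
    apply regime G 2 b 18 τ hτ hb h18 _ _ hA hcount (4 / 9) (1 / 24) (by norm_num)
      (by norm_num) (by norm_num) (by norm_num)
    apply num_mid' 18 τ 31 200 _ _ _ (by norm_num) (by omega) h200 (by norm_num) (by norm_num)
      (by norm_num) (by norm_num) (by norm_num)
    norm_num
  rcases Nat.lt_or_ge 4900 τ with h4900 | h4900
  swap
  · -- noise rate 1/4
    apply regime G 3 b 18 τ hτ hb h18 _ _ hA hcount (3 / 8) (1 / 28) (by norm_num)
      (by norm_num) (by norm_num) (by norm_num)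
    apply num_mid' 18 τ 201 4900 _ _ _ (by norm_num) (by omega) h4900 (by norm_num) (by norm_num)
      (by norm_num) (by norm_num) (by norm_num)
    norm_num
  · -- noise rate 1/⌊√τ⌋
    obtain ⟨k, hk⟩ : ∃ k, Nat.sqrt τ = k + 1 := by
      have : 70 ≤ Nat.sqrt τ := Nat.le_sqrt.mpr (by omega)
      exact ⟨Nat.sqrt τ - 1, by omega⟩
    have hk70 : 70 ≤ k + 1 := by
      rw [← hk]
      exact Nat.le_sqrt.mpr (by omega)
    have hs1 : (k + 1) * (k + 1) ≤ τ := by rw [← hk]; exact Nat.sqrt_le τ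
    have hs2 : τ < (k + 1 + 1) * (k + 1 + 1) := by rw [← hk]; exact Nat.lt_succ_sqrt τ
    have hk70' : (70 : ℝ) ≤ (k : ℝ) + 1 := by exact_mod_cast hk70
    have hs1' : ((k : ℝ) + 1) * ((k : ℝ) + 1) ≤ τ := by exact_mod_cast hs1
    have hs2' : (τ : ℝ) ≤ ((k : ℝ) + 1 + 1) * ((k : ℝ) + 1 + 1) := by exact_mod_cast hs2.le
    set m : ℝ := (k : ℝ) + 1 with hm
    have hm0 : 0 < m := by linarith
    obtain ⟨y, hy⟩ : ∃ y : ℝ, y = 1 / m := ⟨_, rfl⟩
    have hym : y * m = 1 := by rw [hy]; field_simp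
    have hy0 : 0 < y := by rw [hy]; positivity
    have hy70 : y ≤ 1 / 70 := by
      rw [hy]
      exact one_div_le_one_div_of_le (by norm_num) hk70'
    have hq : 2 * (1 / ((k : ℝ) + 1)) * (1 - 1 / ((k : ℝ) + 1)) = 2 * y * (1 - y) := by
      rw [hy]
    have hl1 : (0 : ℝ) < 1 - y / 4 := by linarith
    have hρ1 : 2 * y * (1 - y) / (1 - y / 4) ≤ 2 * y := by
      rw [div_le_iff₀ hl1]
      nlinarith
    have hρ2 : (1 - 2 * y * (1 - y)) / (1 - y / 4) ≤ 1 - 3 / 2 * y := by
      rw [div_le_iff₀ hl1]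
      nlinarith
    have hρ10 : 0 ≤ 2 * y * (1 - y) / (1 - y / 4) := by
      apply div_nonneg _ hl1.le
      nlinarith
    have hρ20 : 0 ≤ (1 - 2 * y * (1 - y)) / (1 - y / 4) := by
      apply div_nonneg _ hl1.le
      nlinarith
    apply regime G k b 18 τ hτ hb h18 _ _ hA hcount (2 * y * (1 - y)) (y / 4) hq.symm
      (by linarith) (by linarith) (by linarith)
    apply num_last18 τ y _ _ hy0 hy70 _ _ hρ10 hρ1 hρ20 hρ2
    · have h1 : m * m * y ^ 2 = 1 := by
        calc m * m * y ^ 2 = (y * m) ^ 2 := by ring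
          _ = 1 := by rw [hym]; norm_num
      calc (1 : ℝ) = m * m * y ^ 2 := h1.symm
        _ ≤ (τ : ℝ) * y ^ 2 := mul_le_mul_of_nonneg_right hs1' (by positivity)
    · calc (τ : ℝ) * y ^ 2 ≤ ((m + 1) * (m + 1)) * y ^ 2 :=
            mul_le_mul_of_nonneg_right hs2' (by positivity)
        _ = (y * m + y) ^ 2 := by ring
        _ = (1 + y) ^ 2 := by rw [hym]

/-- Every vertex has at most `K` non-neighbours with exactly two common neighbours, and the pairs
with at most `10 ^ 6 + 26 K ^ 2` common neighbours form a bipartite graph. -/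
theorem thin (hdeg : ∀ u v, u ≠ v → ¬ G.Adj u v →
      Fintype.card V ≤ G.degree u + G.degree v) (K : ℕ)
    (hK : ∀ z, ((univ.filter (fun y => z ≠ y ∧ ¬ G.Adj z y)).filter
      (fun y => (com G z y).card = 2)).card ≤ K)
    (hT : (light G (1000000 + 26 * K ^ 2)).Colorable 2) :
    ∃ c : Sym2 V → Bool, Good G c := by
  have h2 := two_le G hdeg
  apply main_tau G hdeg 2 (by norm_num) h2 (1000000 + 26 * K ^ 2 + 1)
    (by
      intro s hs
      obtain ⟨C⟩ := hT
      exact ⟨C.comp (SimpleGraph.Hom.ofLE (light_mono G (by omega)))⟩)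
  intro τ hτ hτT b hb hcount
  have hA : (0 : ℝ) ≤ 8 * (τ : ℝ) := by positivity
  obtain ⟨r, hr⟩ : ∃ r, Nat.sqrt τ = r := ⟨_, rfl⟩
  have hr1000 : 1000 ≤ r := by
    rw [← hr]
    exact Nat.le_sqrt.mpr (by omega)
  have hs1 : r * r ≤ τ := by rw [← hr]; exact Nat.sqrt_le τ
  have hs2 : τ < (r + 1) * (r + 1) := by rw [← hr]; exact Nat.lt_succ_sqrt τ
  obtain ⟨k, hk⟩ : ∃ k, 22 * r = k + 1 := ⟨22 * r - 1, by omega⟩
  have hr' : (1000 : ℝ) ≤ r := by exact_mod_cast hr1000
  have hs1' : (r : ℝ) * r ≤ τ := by exact_mod_cast hs1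
  have hs2' : (τ : ℝ) ≤ ((r : ℝ) + 1) * ((r : ℝ) + 1) := by exact_mod_cast hs2.le
  have hτT' : (1000000 : ℝ) + 26 * (K : ℝ) ^ 2 ≤ τ := by
    have : 1000000 + 26 * K ^ 2 ≤ τ := by omega
    exact_mod_cast this
  have hKr : (506 : ℝ) * K ≤ 100 * r := by
    by_contra hcon
    push Not at hcon
    have hK0 : (0 : ℝ) ≤ K := Nat.cast_nonneg K
    nlinarith [sq_nonneg ((K : ℝ) - 20)]
  have hk' : (k : ℝ) + 1 = 22 * r := by exact_mod_cast hk.symm
  have hr0 : (0 : ℝ) < r := by linarith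
  obtain ⟨y, hy⟩ : ∃ y : ℝ, y = 1 / (22 * r) := ⟨_, rfl⟩
  have hym : y * r = 1 / 22 := by rw [hy]; field_simp
  have hy0 : 0 < y := by rw [hy]; positivity
  have hyb : y ≤ 1 / 22000 := by
    rw [hy]
    exact one_div_le_one_div_of_le (by norm_num) (by linarith)
  have hKy : (K : ℝ) * y ≤ 9 / 1000 := by
    have h1 : (506 : ℝ) * K * y ≤ 100 * r * y := mul_le_mul_of_nonneg_right hKr hy0.le
    have h3 : 100 * (r : ℝ) * y = 100 * (y * r) := by ring
    rw [h3, hym] at h1
    linarith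
  have hq : 2 * (1 / ((k : ℝ) + 1)) * (1 - 1 / ((k : ℝ) + 1)) = 2 * y * (1 - y) := by
    rw [hy, hk']
  have hl1 : (0 : ℝ) < 1 - y / 2 := by linarith
  have hρ1 : 2 * y * (1 - y) / (1 - y / 2) ≤ 2 * y := by
    rw [div_le_iff₀ hl1]
    nlinarith
  have hρ2 : (1 - 2 * y * (1 - y)) / (1 - y / 2) ≤ 1 - 149 / 100 * y := by
    rw [div_le_iff₀ hl1]
    nlinarith
  have hρ10 : 0 ≤ 2 * y * (1 - y) / (1 - y / 2) := by
    apply div_nonneg _ hl1.le
    nlinarith
  have hρ20 : 0 ≤ (1 - 2 * y * (1 - y)) / (1 - y / 2) := by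
    apply div_nonneg _ hl1.le
    nlinarith
  apply regime_exc G k b 2 3 τ K (by norm_num) (by omega) hb
    (fun u v huv hadj => by have := h2 u v huv hadj; omega) hK _ _ hA
    (fun z s hs => hcount z s (by omega)) (2 * y * (1 - y)) (y / 2) hq.symm
    (by linarith) (by linarith) (by linarith)
  apply num_last3 τ K y _ _ hy0 hyb hKy _ _ hρ10 hρ1 hρ20 hρ2
  · have h1 : (r : ℝ) * r * y ^ 2 = 1 / 484 := by
      calc (r : ℝ) * r * y ^ 2 = (y * r) ^ 2 := by ring
        _ = 1 / 484 := by rw [hym]; norm_num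
    calc (1 / 484 : ℝ) = r * r * y ^ 2 := h1.symm
      _ ≤ (τ : ℝ) * y ^ 2 := mul_le_mul_of_nonneg_right hs1' (by positivity)
  · calc (τ : ℝ) * y ^ 2 ≤ (((r : ℝ) + 1) * (r + 1)) * y ^ 2 :=
          mul_le_mul_of_nonneg_right hs2' (by positivity)
      _ = (y * r + y) ^ 2 := by ring
      _ = (1 / 22 + y) ^ 2 := by rw [hym]
      _ ≤ (1 / 22 + 1 / 22000) ^ 2 := by
          apply pow_le_pow_left₀ (by positivity)
          linarith
      _ ≤ 207 / 100000 + 1 / 1000000 := by norm_num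

/-- Many non-neighbours with few common neighbours at one vertex. -/
theorem crowded (hdeg : ∀ u v, u ≠ v → ¬ G.Adj u v →
      Fintype.card V ≤ G.degree u + G.degree v) (K : ℕ)
    (hK : ∀ z, ((univ.filter (fun y => z ≠ y ∧ ¬ G.Adj z y)).filter
      (fun y => (com G z y).card = 2)).card ≤ K)
    (z : V) (s : ℕ)
    (hz : (4 * s + 1) * (2 * (1000000 + 26 * K ^ 2)) < (near G z s).card) :
    ∃ c : Sym2 V → Bool, Good G c := by
  apply thin G hdeg K hK
  by_contra hcon
  have h1 := card_near_le' G hdeg _ hcon z s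
  omega

lemma three_le (hdeg : ∀ u v, u ≠ v → ¬ G.Adj u v →
      Fintype.card V + 1 ≤ G.degree u + G.degree v) :
    ∀ u v, u ≠ v → ¬ G.Adj u v → 3 ≤ (com G u v).card := by
  intro u v huv hadj
  have h1 := card_exc G u v
  have h4 := hdeg u v huv hadj
  have h3 := com_add_two_le G u v huv hadj
  omega

/-- A small vertex cut. -/
theorem small_cut (hδ : ∀ v, Fintype.card V ≤ 2 * G.degree v) (K T : ℕ)
    (hT : T = 1000000 + 26 * K ^ 2)
    (hK : ∀ z, ((univ.filter (fun y => z ≠ y ∧ ¬ G.Adj z y)).filter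
      (fun y => (com G z y).card = 2)).card ≤ K)
    (A B : Finset V) (hA : A.Nonempty) (hB : B.Nonempty)
    (hAB : ∀ a ∈ A, ∀ b ∈ B, a ≠ b ∧ ¬ G.Adj a b)
    (hcut : (18 * T + 2) * (Fintype.card V - (A ∪ B).card) ≤ Fintype.card V) :
    ∃ c : Sym2 V → Bool, Good G c := by
  have hdeg : ∀ u v, u ≠ v → ¬ G.Adj u v → Fintype.card V ≤ G.degree u + G.degree v := by
    intro u v _ _
    have h1 := hδ u
    have h2 := hδ v
    omega
  have h3 := two_le G hdeg
  obtain ⟨a, ha⟩ := hA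
  obtain ⟨b, hb⟩ := hB
  obtain ⟨k, hk⟩ : ∃ k, k = (univ \ (A ∪ B)).card := ⟨_, rfl⟩
  have hk' : k = Fintype.card V - (A ∪ B).card := by
    rw [hk, Finset.card_sdiff_of_subset (Finset.subset_univ _), Finset.card_univ]
  have hcom : ∀ b' ∈ B, (com G a b').card ≤ k := by
    intro b' hb'
    rw [hk]
    apply Finset.card_le_card
    intro w hw
    rw [mem_com] at hw
    simp only [mem_sdiff, mem_univ, true_and, mem_union]
    rintro (h | h)
    · exact (hAB w h b' hb').2 hw.2.symm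
    · exact (hAB a ha w h).2 hw.1
  have hk2 : 2 ≤ k := (h3 a b (hAB a ha b hb).1 (hAB a ha b hb).2).trans (hcom b hb)
  have hBn : B ⊆ near G a k := by
    intro b' hb'
    simp only [near, mem_filter, mem_univ, true_and]
    exact ⟨hAB a ha b' hb', hcom b' hb'⟩
  have hBcard : G.degree b + 1 ≤ B.card + k := by
    have h1 : insert b (G.neighborFinset b) ⊆ B ∪ (univ \ (A ∪ B)) := by
      intro w hw
      simp only [mem_insert, SimpleGraph.mem_neighborFinset] at hw
      simp only [mem_union, mem_sdiff, mem_univ, true_and]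
      rcases hw with rfl | hw
      · exact Or.inl hb
      · by_cases h : w ∈ B
        · exact Or.inl h
        · refine Or.inr ?_
          rintro (h' | h')
          · exact (hAB w h' b hb).2 hw.symm
          · exact h h'
    have h2 := (Finset.card_le_card h1).trans (Finset.card_union_le _ _)
    rw [Finset.card_insert_of_notMem (by simp), SimpleGraph.card_neighborFinset_eq_degree,
      ← hk] at h2
    exact h2
  have h5 := Finset.card_le_card hBn
  have h6 := hδ b
  apply crowded G hdeg K hK a k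
  rw [← hk'] at hcut
  rw [← hT]
  have h7 : (18 * T + 2) * k = 16 * (T * k) + 2 * k + 2 * (T * k) := by ring
  have h8 : (4 * k + 1) * (2 * T) = 8 * (T * k) + 2 * T := by ring
  have h9 : 2 * T ≤ T * k := by
    rw [mul_comm 2 T]
    exact Nat.mul_le_mul_left T hk2
  have h10 : 0 < T := by rw [hT]; omega
  omega

/-- For an odd number of vertices, minimum degree at least `n / 2` excludes pairs with exactly two
common neighbours. -/
lemma no_thin (hodd : Odd (Fintype.card V)) (hδ : ∀ v, Fintype.card V ≤ 2 * G.degree v) (K : ℕ) :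
    ∀ z, ((univ.filter (fun y => z ≠ y ∧ ¬ G.Adj z y)).filter
      (fun y => (com G z y).card = 2)).card ≤ K := by
  obtain ⟨m, hm⟩ := hodd
  have hdeg : ∀ u v, u ≠ v → ¬ G.Adj u v → Fintype.card V + 1 ≤ G.degree u + G.degree v := by
    intro u v _ _
    have h1 := hδ u
    have h2 := hδ v
    omega
  have h3 := three_le G hdeg
  intro z
  refine le_trans (le_of_eq ?_) (Nat.zero_le K)
  rw [Finset.card_eq_zero, Finset.filter_eq_empty_iff]
  intro y hy hy2
  have := h3 z y (Finset.mem_filter.mp hy).2.1 (Finset.mem_filter.mp hy).2.2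
  omega

end

end Pool.Agent.Lib.MP_85f9db_co.H7
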