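import Pool.Agent.Lib.MP_85f9db_co.H7.Core

set_option autoImplicit false

/-! # Numerical inequalities -/

namespace Pool.Agent.Lib.MP_85f9db_co.H7

open Finset Pool.Agent.Lib.MP_85f9db_co.H67

/-- Decay of the unseparated part. -/
lemma decay' (ρ : ℝ) (h0 : 0 ≤ ρ) (h1 : ρ ≤ 2 / 3) (m τ : ℕ) (hm : 23 ≤ m) (hτ : m ≤ τ) :
    (8 * (τ : ℝ) * τ + 2 * τ) * ρ ^ τ ≤ (8 * (m : ℝ) * m + 2 * m) * ρ ^ m := by
  induction τ, hτ using Nat.le_induction with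
  | base => exact le_rfl
  | succ n hn ih =>
    refine le_trans ?_ ih
    have h2 : (23 : ℝ) ≤ n := by exact_mod_cast hm.trans hn
    rw [pow_succ]
    have h3 : 0 ≤ ρ ^ n := pow_nonneg h0 n
    push_cast
    have h4 : (8 * ((n : ℝ) + 1) * ((n : ℝ) + 1) + 2 * ((n : ℝ) + 1)) * ρ ≤
        8 * (n : ℝ) * n + 2 * n := by
      have h5 : 0 ≤ 8 * ((n : ℝ) + 1) * ((n : ℝ) + 1) + 2 * ((n : ℝ) + 1) := by positivity
      calc (8 * ((n : ℝ) + 1) * ((n : ℝ) + 1) + 2 * ((n : ℝ) + 1)) * ρ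
          ≤ (8 * ((n : ℝ) + 1) * ((n : ℝ) + 1) + 2 * ((n : ℝ) + 1)) * (2 / 3) :=
            mul_le_mul_of_nonneg_left h1 h5
        _ ≤ _ := by nlinarith
    calc (8 * ((n : ℝ) + 1) * ((n : ℝ) + 1) + 2 * ((n : ℝ) + 1)) * (ρ ^ n * ρ)
        = ((8 * ((n : ℝ) + 1) * ((n : ℝ) + 1) + 2 * ((n : ℝ) + 1)) * ρ) * ρ ^ n := by ring
      _ ≤ (8 * (n : ℝ) * n + 2 * n) * ρ ^ n := mul_le_mul_of_nonneg_right h4 h3

/-- Middle regimes. -/
lemma num_mid' (t0 τ m m' : ℕ) (ρ1 ρ2 l : ℝ) (hm : 23 ≤ m) (hτ : m ≤ τ) (hτ' : τ ≤ m')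
    (h10 : 0 ≤ ρ1) (h11 : ρ1 < 1) (h20 : 0 ≤ ρ2) (h21 : ρ2 ≤ 2 / 3) (hl : l < 1)
    (hnum : (m' : ℝ) * ((8 * t0 + 2) * ρ1 ^ t0 + 8 * ρ1 ^ (t0 + 1) / (1 - ρ1)) +
      (8 * (m : ℝ) * m + 2 * m) * ρ2 ^ m * (11 / 10) ≤ l * (1 - l) ^ 2) :
    SC (8 * (τ : ℝ)) (2 * (τ : ℝ)) ρ1 ρ2 t0 τ / (1 - l) ^ 2 ≤ l := by
  have hl' : 0 < (1 - l) ^ 2 := by
    apply pow_pos
    linarith
  rw [div_le_iff₀ hl']
  refine le_trans ?_ hnum
  have hm' : (23 : ℝ) ≤ m := by exact_mod_cast hm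
  have hmt : (m : ℝ) ≤ τ := by exact_mod_cast hτ
  have htm : (τ : ℝ) ≤ m' := by exact_mod_cast hτ'
  have h1 : 0 ≤ (8 * (t0 : ℝ) + 2) * ρ1 ^ t0 + 8 * ρ1 ^ (t0 + 1) / (1 - ρ1) := by
    have : 0 < 1 - ρ1 := by linarith
    positivity
  have h2 : (τ : ℝ) * ((8 * t0 + 2) * ρ1 ^ t0 + 8 * ρ1 ^ (t0 + 1) / (1 - ρ1)) ≤
      (m' : ℝ) * ((8 * t0 + 2) * ρ1 ^ t0 + 8 * ρ1 ^ (t0 + 1) / (1 - ρ1)) :=
    mul_le_mul_of_nonneg_right htm h1
  have h3 := decay' ρ2 h20 h21 m τ hm hτ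
  have h4 : 8 * (τ : ℝ) * ρ2 ^ (τ + 1) / (1 - ρ2) ≤
      (8 * (τ : ℝ) * τ + 2 * τ) * ρ2 ^ τ * (1 / 10) := by
    have h5 : 0 < 1 - ρ2 := by linarith
    rw [div_le_iff₀ h5, pow_succ]
    have h6 : 0 ≤ (τ : ℝ) * ρ2 ^ τ := by positivity
    have h7 : 8 * ρ2 ≤ (8 * (τ : ℝ) + 2) * (1 / 10) * (1 - ρ2) := by
      nlinarith
    calc 8 * (τ : ℝ) * (ρ2 ^ τ * ρ2)
        = ((τ : ℝ) * ρ2 ^ τ) * (8 * ρ2) := by ring
      _ ≤ ((τ : ℝ) * ρ2 ^ τ) * ((8 * (τ : ℝ) + 2) * (1 / 10) * (1 - ρ2)) :=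
          mul_le_mul_of_nonneg_left h7 h6
      _ = _ := by ring
  unfold SC
  have h8 : ((8 * (τ : ℝ)) * t0 + 2 * τ) * ρ1 ^ t0 + (8 * (τ : ℝ)) * ρ1 ^ (t0 + 1) / (1 - ρ1) =
      (τ : ℝ) * ((8 * t0 + 2) * ρ1 ^ t0 + 8 * ρ1 ^ (t0 + 1) / (1 - ρ1)) := by ring
  rw [h8]
  linarith

/-- Last regime for `t0 = 18`: `y = 1 / ⌊√τ⌋`. -/
lemma num_last18 (τ : ℕ) (y ρ1 ρ2 : ℝ) (hy0 : 0 < y) (hy : y ≤ 1 / 70)
    (hτ1 : 1 ≤ (τ : ℝ) * y ^ 2) (hτ2 : (τ : ℝ) * y ^ 2 ≤ (1 + y) ^ 2)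
    (h10 : 0 ≤ ρ1) (h11 : ρ1 ≤ 2 * y) (h20 : 0 ≤ ρ2) (h21 : ρ2 ≤ 1 - 3 / 2 * y) :
    SC (8 * (τ : ℝ)) (2 * (τ : ℝ)) ρ1 ρ2 18 τ / (1 - y / 4) ^ 2 ≤ y / 4 := by
  have hτ0 : (0 : ℝ) ≤ τ := Nat.cast_nonneg τ
  have hy2 : (1 + y) ^ 2 ≤ 1.03 := by nlinarith
  have hc2 : (τ : ℝ) * y ^ 2 ≤ 1.03 := hτ2.trans hy2
  -- bound on the power of ρ2
  have he : ρ2 ^ τ ≤ 62930 * y ^ 10 := by
    have h1 : ρ2 ≤ Real.exp (-(3 / 2 * y)) := by
      refine h21.trans ?_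
      have := Real.add_one_le_exp (-(3 / 2 * y))
      linarith
    have h2 : ρ2 ^ τ ≤ Real.exp (-(3 / 2 * y)) ^ τ := pow_le_pow_left₀ h20 h1 τ
    rw [← Real.exp_nat_mul] at h2
    have h3 : (τ : ℝ) * -(3 / 2 * y) ≤ -(3 / 2 / y) := by
      have h4 : 1 / y ≤ (τ : ℝ) * y := by
        rw [div_le_iff₀ hy0]
        nlinarith
      have h5 : 3 / 2 / y = 3 / 2 * (1 / y) := by ring
      rw [h5]
      nlinarith
    have h4 : Real.exp ((τ : ℝ) * -(3 / 2 * y)) ≤ Real.exp (-(3 / 2 / y)) :=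
      Real.exp_le_exp.mpr h3
    have h5 : (3 / 2 / y) ^ 10 / (Nat.factorial 10 : ℕ) ≤ Real.exp (3 / 2 / y) :=
      Real.pow_div_factorial_le_exp _ (by positivity) 10
    have h6 : Real.exp (-(3 / 2 / y)) ≤ 62930 * y ^ 10 := by
      rw [Real.exp_neg]
      have h7 : (0 : ℝ) < (3 / 2 / y) ^ 10 / (Nat.factorial 10 : ℕ) := by positivity
      refine (inv_anti₀ h7 h5).trans ?_
      rw [show (Nat.factorial 10 : ℕ) = 3628800 from rfl]
      rw [div_pow, inv_div]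
      push_cast
      rw [div_div_eq_mul_div, div_le_iff₀ (by positivity)]
      have : (0 : ℝ) ≤ y ^ 10 := by positivity
      nlinarith
    exact h2.trans (h4.trans h6)
  have he0 : 0 ≤ ρ2 ^ τ := pow_nonneg h20 τ
  set e := ρ2 ^ τ with hedef
  have hr1 : ρ1 ≤ 2 / 70 := by linarith
  have y5 : y ^ 5 ≤ (1 / 70) ^ 5 := pow_le_pow_left₀ hy0.le hy 5
  have y6 : y ^ 6 ≤ (1 / 70) ^ 6 := pow_le_pow_left₀ hy0.le hy 6
  have y7 : y ^ 7 ≤ (1 / 70) ^ 7 := pow_le_pow_left₀ hy0.le hy 7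
  have y15 : y ^ 15 ≤ (1 / 70) ^ 15 := pow_le_pow_left₀ hy0.le hy 15
  have y16 : y ^ 16 ≤ (1 / 70) ^ 16 := pow_le_pow_left₀ hy0.le hy 16
  have T1 : 146 * (τ : ℝ) * ρ1 ^ 18 ≤ y / 1000 := by
    have h1 : ρ1 ^ 18 ≤ (2 * y) ^ 18 := pow_le_pow_left₀ h10 h11 18
    calc 146 * (τ : ℝ) * ρ1 ^ 18 ≤ 146 * (τ : ℝ) * (2 * y) ^ 18 :=
          mul_le_mul_of_nonneg_left h1 (by positivity)
      _ = 146 * 262144 * ((τ : ℝ) * y ^ 2) * y ^ 15 * y := by ring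
      _ ≤ 146 * 262144 * 1.03 * (1 / 70) ^ 15 * y := by
          apply mul_le_mul_of_nonneg_right _ hy0.le
          apply mul_le_mul _ y15 (by positivity) (by norm_num)
          nlinarith
      _ ≤ y / 1000 := by
          have : 146 * 262144 * 1.03 * (1 / 70 : ℝ) ^ 15 ≤ 1 / 1000 := by norm_num
          nlinarith
  have T2 : 8 * (τ : ℝ) * ρ1 ^ 19 / (1 - ρ1) ≤ y / 1000 := by
    have h1 : ρ1 ^ 19 ≤ (2 * y) ^ 19 := pow_le_pow_left₀ h10 h11 19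
    rw [div_le_iff₀ (by linarith)]
    calc 8 * (τ : ℝ) * ρ1 ^ 19 ≤ 8 * (τ : ℝ) * (2 * y) ^ 19 :=
          mul_le_mul_of_nonneg_left h1 (by positivity)
      _ = 8 * 524288 * ((τ : ℝ) * y ^ 2) * y ^ 16 * y := by ring
      _ ≤ 8 * 524288 * 1.03 * (1 / 70) ^ 16 * y := by
          apply mul_le_mul_of_nonneg_right _ hy0.le
          apply mul_le_mul _ y16 (by positivity) (by norm_num)
          nlinarith
      _ ≤ y / 1000 * (1 - 2 / 70) := by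
          have : 8 * 524288 * 1.03 * (1 / 70 : ℝ) ^ 16 ≤ 1 / 1000 * (1 - 2 / 70) := by norm_num
          nlinarith
      _ ≤ y / 1000 * (1 - ρ1) := by
          apply mul_le_mul_of_nonneg_left _ (by positivity)
          linarith
  have T3 : 8 * (τ : ℝ) * τ * e ≤ y / 100 := by
    calc 8 * (τ : ℝ) * τ * e ≤ 8 * (τ : ℝ) * τ * (62930 * y ^ 10) :=
          mul_le_mul_of_nonneg_left he (by positivity)
      _ = 8 * 62930 * ((τ : ℝ) * y ^ 2) * ((τ : ℝ) * y ^ 2) * y ^ 5 * y := by ring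
      _ ≤ 8 * 62930 * 1.03 * 1.03 * (1 / 70) ^ 5 * y := by
          apply mul_le_mul_of_nonneg_right _ hy0.le
          apply mul_le_mul _ y5 (by positivity) (by norm_num)
          apply mul_le_mul _ hc2 (by positivity) (by norm_num)
          nlinarith
      _ ≤ y / 100 := by
          have : 8 * 62930 * 1.03 * 1.03 * (1 / 70 : ℝ) ^ 5 ≤ 1 / 100 := by norm_num
          nlinarith
  have T3' : 2 * (τ : ℝ) * e ≤ y / 1000 := by
    calc 2 * (τ : ℝ) * e ≤ 2 * (τ : ℝ) * (62930 * y ^ 10) :=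
          mul_le_mul_of_nonneg_left he (by positivity)
      _ = 2 * 62930 * ((τ : ℝ) * y ^ 2) * y ^ 7 * y := by ring
      _ ≤ 2 * 62930 * 1.03 * (1 / 70) ^ 7 * y := by
          apply mul_le_mul_of_nonneg_right _ hy0.le
          apply mul_le_mul _ y7 (by positivity) (by norm_num)
          nlinarith
      _ ≤ y / 1000 := by
          have : 2 * 62930 * 1.03 * (1 / 70 : ℝ) ^ 7 ≤ 1 / 1000 := by norm_num
          nlinarith
  have T4 : 8 * (τ : ℝ) * ρ2 ^ (τ + 1) / (1 - ρ2) ≤ y / 1000 := by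
    rw [div_le_iff₀ (by linarith), pow_succ, ← hedef]
    have hr2 : ρ2 ≤ 1 := by linarith
    calc 8 * (τ : ℝ) * (e * ρ2) ≤ 8 * (τ : ℝ) * (e * 1) := by
          apply mul_le_mul_of_nonneg_left _ (by positivity)
          exact mul_le_mul_of_nonneg_left hr2 he0
      _ ≤ 8 * (τ : ℝ) * (62930 * y ^ 10) := by
          rw [mul_one]
          exact mul_le_mul_of_nonneg_left he (by positivity)
      _ = 8 * 62930 * ((τ : ℝ) * y ^ 2) * y ^ 6 * (y * y) := by ring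
      _ ≤ 8 * 62930 * 1.03 * (1 / 70) ^ 6 * (y * y) := by
          apply mul_le_mul_of_nonneg_right _ (by positivity)
          apply mul_le_mul _ y6 (by positivity) (by norm_num)
          nlinarith
      _ ≤ 1 / 1000 * (3 / 2) * (y * y) := by
          apply mul_le_mul_of_nonneg_right _ (by positivity)
          norm_num
      _ = y / 1000 * (3 / 2 * y) := by ring
      _ ≤ y / 1000 * (1 - ρ2) := by
          apply mul_le_mul_of_nonneg_left _ (by positivity)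
          linarith
  have hl' : 0 < (1 - y / 4) ^ 2 := by
    apply pow_pos
    linarith
  rw [div_le_iff₀ hl']
  unfold SC
  have h8 : ((8 * (τ : ℝ)) * (18 : ℕ) + 2 * τ) * ρ1 ^ 18 = 146 * (τ : ℝ) * ρ1 ^ 18 := by
    push_cast; ring
  have h9 : ((8 * (τ : ℝ)) * τ + 2 * τ) * ρ2 ^ τ = 8 * (τ : ℝ) * τ * e + 2 * (τ : ℝ) * e := by
    rw [← hedef]; ring
  have h10' : y / 4 * (1 - y / 4) ^ 2 ≥ y / 4 * (1 / 2) := by
    apply mul_le_mul_of_nonneg_left _ (by positivity)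
    nlinarith
  rw [h8, h9]
  have h11' : (18 + 1 : ℕ) = 19 := rfl
  rw [h11']
  linarith

/-- The regime for `t0 = 3`: `y = 1 / (22 ⌊√τ⌋)`, with up to `K` partners with two common
neighbours. -/
lemma num_last3 (τ K : ℕ) (y ρ1 ρ2 : ℝ) (hy0 : 0 < y) (hy : y ≤ 1 / 22000)
    (hK : (K : ℝ) * y ≤ 9 / 1000)
    (hτ1 : 1 / 484 ≤ (τ : ℝ) * y ^ 2) (hτ2 : (τ : ℝ) * y ^ 2 ≤ 207 / 100000 + 1 / 1000000)
    (h10 : 0 ≤ ρ1) (h11 : ρ1 ≤ 2 * y) (h20 : 0 ≤ ρ2) (h21 : ρ2 ≤ 1 - 149 / 100 * y) :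
    ((K : ℝ) * ρ1 ^ 2 + SC (8 * (τ : ℝ)) (2 * (τ : ℝ)) ρ1 ρ2 3 τ) / (1 - y / 2) ^ 2
      ≤ y / 2 := by
  have hτ0 : (0 : ℝ) ≤ τ := Nat.cast_nonneg τ
  have T0 : (K : ℝ) * ρ1 ^ 2 ≤ 36 / 1000 * y := by
    have h1 : ρ1 ^ 2 ≤ (2 * y) ^ 2 := pow_le_pow_left₀ h10 h11 2
    calc (K : ℝ) * ρ1 ^ 2 ≤ K * (2 * y) ^ 2 := mul_le_mul_of_nonneg_left h1 (by positivity)
      _ = 4 * (K * y) * y := by ring
      _ ≤ 4 * (9 / 1000) * y := by
          apply mul_le_mul_of_nonneg_right _ hy0.le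
          linarith
      _ = 36 / 1000 * y := by ring
  -- bound on the power of ρ2
  have he : ρ2 ^ τ ≤ 10 ^ 88 * y ^ 25 := by
    have h1 : ρ2 ≤ Real.exp (-(149 / 100 * y)) := by
      refine h21.trans ?_
      have := Real.add_one_le_exp (-(149 / 100 * y))
      linarith
    have h2 : ρ2 ^ τ ≤ Real.exp (-(149 / 100 * y)) ^ τ := pow_le_pow_left₀ h20 h1 τ
    rw [← Real.exp_nat_mul] at h2
    have h3 : (τ : ℝ) * -(149 / 100 * y) ≤ -(149 / 48400 / y) := by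
      have h4 : 1 / 484 / y ≤ (τ : ℝ) * y := by
        rw [div_le_iff₀ hy0]
        nlinarith
      have h5 : 149 / 48400 / y = 149 / 100 * (1 / 484 / y) := by ring
      rw [h5]
      nlinarith
    have h4 : Real.exp ((τ : ℝ) * -(149 / 100 * y)) ≤ Real.exp (-(149 / 48400 / y)) :=
      Real.exp_le_exp.mpr h3
    have h5 : (149 / 48400 / y) ^ 25 / (Nat.factorial 25 : ℕ) ≤ Real.exp (149 / 48400 / y) :=
      Real.pow_div_factorial_le_exp _ (by positivity) 25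
    have h6 : Real.exp (-(149 / 48400 / y)) ≤ 10 ^ 88 * y ^ 25 := by
      rw [Real.exp_neg]
      have h7 : (0 : ℝ) < (149 / 48400 / y) ^ 25 / (Nat.factorial 25 : ℕ) := by positivity
      refine (inv_anti₀ h7 h5).trans ?_
      rw [show (Nat.factorial 25 : ℕ) = 15511210043330985984000000 from rfl]
      rw [div_pow, inv_div]
      push_cast
      rw [div_div_eq_mul_div, div_le_iff₀ (by positivity)]
      have : (0 : ℝ) ≤ y ^ 25 := by positivity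
      have h8 : (15511210043330985984000000 : ℝ) ≤ 10 ^ 88 * (149 / 48400) ^ 25 := by norm_num
      calc (15511210043330985984000000 : ℝ) * y ^ 25 ≤ 10 ^ 88 * (149 / 48400) ^ 25 * y ^ 25 :=
            mul_le_mul_of_nonneg_right h8 this
        _ = _ := by ring
    exact h2.trans (h4.trans h6)
  have he0 : 0 ≤ ρ2 ^ τ := pow_nonneg h20 τ
  set e := ρ2 ^ τ with hedef
  have hr1 : ρ1 ≤ 1 / 10000 := by linarith
  have y20 : y ^ 20 ≤ (1 / 22000) ^ 20 := pow_le_pow_left₀ hy0.le hy 20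
  have y21 : y ^ 21 ≤ (1 / 22000) ^ 21 := pow_le_pow_left₀ hy0.le hy 21
  have y22 : y ^ 22 ≤ (1 / 22000) ^ 22 := pow_le_pow_left₀ hy0.le hy 22
  have T1 : 26 * (τ : ℝ) * ρ1 ^ 3 ≤ 431 / 1000 * y := by
    have h1 : ρ1 ^ 3 ≤ (2 * y) ^ 3 := pow_le_pow_left₀ h10 h11 3
    calc 26 * (τ : ℝ) * ρ1 ^ 3 ≤ 26 * (τ : ℝ) * (2 * y) ^ 3 :=
          mul_le_mul_of_nonneg_left h1 (by positivity)
      _ = 208 * ((τ : ℝ) * y ^ 2) * y := by ring
      _ ≤ 208 * (207 / 100000 + 1 / 1000000) * y := by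
          apply mul_le_mul_of_nonneg_right _ hy0.le
          linarith
      _ ≤ 431 / 1000 * y := by nlinarith
  have T2 : 8 * (τ : ℝ) * ρ1 ^ 4 / (1 - ρ1) ≤ y / 1000 := by
    have h1 : ρ1 ^ 4 ≤ (2 * y) ^ 4 := pow_le_pow_left₀ h10 h11 4
    rw [div_le_iff₀ (by linarith)]
    calc 8 * (τ : ℝ) * ρ1 ^ 4 ≤ 8 * (τ : ℝ) * (2 * y) ^ 4 :=
          mul_le_mul_of_nonneg_left h1 (by positivity)
      _ = 128 * ((τ : ℝ) * y ^ 2) * y * y := by ring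
      _ ≤ 128 * (207 / 100000 + 1 / 1000000) * (1 / 22000) * y := by
          apply mul_le_mul_of_nonneg_right _ hy0.le
          apply mul_le_mul _ hy hy0.le (by norm_num)
          linarith
      _ ≤ y / 1000 * (1 - 1 / 10000) := by nlinarith
      _ ≤ y / 1000 * (1 - ρ1) := by
          apply mul_le_mul_of_nonneg_left _ (by positivity)
          linarith
  have T3 : 8 * (τ : ℝ) * τ * e ≤ y / 100 := by
    calc 8 * (τ : ℝ) * τ * e ≤ 8 * (τ : ℝ) * τ * (10 ^ 88 * y ^ 25) :=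
          mul_le_mul_of_nonneg_left he (by positivity)
      _ = 8 * 10 ^ 88 * ((τ : ℝ) * y ^ 2) * ((τ : ℝ) * y ^ 2) * y ^ 20 * y := by ring
      _ ≤ 8 * 10 ^ 88 * (21 / 10000) * (21 / 10000) * (1 / 22000) ^ 20 * y := by
          apply mul_le_mul_of_nonneg_right _ hy0.le
          apply mul_le_mul _ y20 (by positivity) (by norm_num)
          apply mul_le_mul _ (by linarith) (by positivity) (by norm_num)
          nlinarith
      _ ≤ y / 100 := by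
          have : 8 * 10 ^ 88 * (21 / 10000) * (21 / 10000) * (1 / 22000 : ℝ) ^ 20 ≤ 1 / 100 := by
            norm_num
          nlinarith
  have T3' : 2 * (τ : ℝ) * e ≤ y / 1000 := by
    calc 2 * (τ : ℝ) * e ≤ 2 * (τ : ℝ) * (10 ^ 88 * y ^ 25) :=
          mul_le_mul_of_nonneg_left he (by positivity)
      _ = 2 * 10 ^ 88 * ((τ : ℝ) * y ^ 2) * y ^ 22 * y := by ring
      _ ≤ 2 * 10 ^ 88 * (21 / 10000) * (1 / 22000) ^ 22 * y := by
          apply mul_le_mul_of_nonneg_right _ hy0.le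
          apply mul_le_mul _ y22 (by positivity) (by norm_num)
          nlinarith
      _ ≤ y / 1000 := by
          have : 2 * 10 ^ 88 * (21 / 10000) * (1 / 22000 : ℝ) ^ 22 ≤ 1 / 1000 := by norm_num
          nlinarith
  have T4 : 8 * (τ : ℝ) * ρ2 ^ (τ + 1) / (1 - ρ2) ≤ y / 1000 := by
    rw [div_le_iff₀ (by linarith), pow_succ, ← hedef]
    have hr2 : ρ2 ≤ 1 := by linarith
    calc 8 * (τ : ℝ) * (e * ρ2) ≤ 8 * (τ : ℝ) * (e * 1) := by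
          apply mul_le_mul_of_nonneg_left _ (by positivity)
          exact mul_le_mul_of_nonneg_left hr2 he0
      _ ≤ 8 * (τ : ℝ) * (10 ^ 88 * y ^ 25) := by
          rw [mul_one]
          exact mul_le_mul_of_nonneg_left he (by positivity)
      _ = 8 * 10 ^ 88 * ((τ : ℝ) * y ^ 2) * y ^ 21 * (y * y) := by ring
      _ ≤ 8 * 10 ^ 88 * (21 / 10000) * (1 / 22000) ^ 21 * (y * y) := by
          apply mul_le_mul_of_nonneg_right _ (by positivity)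
          apply mul_le_mul _ y21 (by positivity) (by norm_num)
          nlinarith
      _ ≤ 1 / 1000 * (149 / 100) * (y * y) := by
          apply mul_le_mul_of_nonneg_right _ (by positivity)
          norm_num
      _ = y / 1000 * (149 / 100 * y) := by ring
      _ ≤ y / 1000 * (1 - ρ2) := by
          apply mul_le_mul_of_nonneg_left _ (by positivity)
          linarith
  have hl' : 0 < (1 - y / 2) ^ 2 := by
    apply pow_pos
    linarith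
  rw [div_le_iff₀ hl']
  unfold SC
  have h8 : ((8 * (τ : ℝ)) * (3 : ℕ) + 2 * τ) * ρ1 ^ 3 = 26 * (τ : ℝ) * ρ1 ^ 3 := by
    push_cast; ring
  have h9 : ((8 * (τ : ℝ)) * τ + 2 * τ) * ρ2 ^ τ = 8 * (τ : ℝ) * τ * e + 2 * (τ : ℝ) * e := by
    rw [← hedef]; ring
  have h10' : y / 2 * (1 - y / 2) ^ 2 ≥ y / 2 * (49 / 50) := by
    apply mul_le_mul_of_nonneg_left _ (by positivity)
    nlinarith
  rw [h8, h9]
  have h11' : (3 + 1 : ℕ) = 4 := rfl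
  rw [h11']
  linarith

end Pool.Agent.Lib.MP_85f9db_co.H7
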