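import Mathlib

set_option autoImplicit false

/-! # From two-coloured paths of length two to rainbow paths -/

namespace Pool.Agent.Lib.MP_85f9db_co.H7

open Finset

lemma exists_path {V : Type} [Fintype V] [DecidableEq V] (G : SimpleGraph V)
    (h : ∃ c : Sym2 V → Bool, ∀ u v, u ≠ v → ¬ G.Adj u v →
      ∃ w, G.Adj u w ∧ G.Adj v w ∧ c s(u, w) ≠ c s(v, w)) :
    ∃ c : Sym2 V → Fin 2, ∀ u v : V, u ≠ v →
      ∃ p : G.Walk u v, p.IsPath ∧ (p.edges.map c).Nodup := by
  obtain ⟨c, hc⟩ := h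
  refine ⟨fun e => if c e = true then 1 else 0, ?_⟩
  intro u v huv
  by_cases hadj : G.Adj u v
  · refine ⟨SimpleGraph.Walk.cons hadj SimpleGraph.Walk.nil, ?_, ?_⟩
    · simp [huv]
    · simp
  · obtain ⟨w, huw, hvw, hne⟩ := hc u v huv hadj
    refine ⟨SimpleGraph.Walk.cons huw (SimpleGraph.Walk.cons hvw.symm SimpleGraph.Walk.nil), ?_, ?_⟩
    · simp [huv, huw.ne, hvw.ne']
    · have h2 : s(w, v) = s(v, w) := Sym2.eq_swap
      simp only [SimpleGraph.Walk.edges_cons, SimpleGraph.Walk.edges_nil, List.map_cons,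
        List.map_nil, List.nodup_cons, List.mem_singleton, List.not_mem_nil, not_false_eq_true,
        List.nodup_nil, and_true]
      rw [h2]
      revert hne
      cases c s(u, w) <;> cases c s(v, w) <;> simp

end Pool.Agent.Lib.MP_85f9db_co.H7
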